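import Mathlib

/-!
# The sum of the multiplicative function `∏_{p ∣ u} A / p` over `u ≤ X`, for `A = 1 + 3 log X`

The main result is that the sum is at most `C X ^ δ`, for every `δ > 0`.
-/

set_option autoImplicit false

namespace Pool.Agent.Q173.HW

open Finset

/-- `w A u = ∏_{p ∣ u} A / p` -/
noncomputable def w (A : ℝ) (u : ℕ) : ℝ := ∏ p ∈ u.primeFactors, A / (p : ℝ)

theorem w_one (A : ℝ) : w A 1 = 1 := by simp [w]

theorem w_nonneg {A : ℝ} (hA : 0 ≤ A) (u : ℕ) : 0 ≤ w A u :=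
  Finset.prod_nonneg fun p _ => div_nonneg hA (Nat.cast_nonneg p)

theorem w_mul (A : ℝ) {u v : ℕ} (h : Nat.Coprime u v) : w A (u * v) = w A u * w A v := by
  unfold w
  rw [h.primeFactors_mul, Finset.prod_union h.disjoint_primeFactors]

theorem w_prime_pow (A : ℝ) {p k : ℕ} (hp : p.Prime) (hk : k ≠ 0) : w A (p ^ k) = A / p := by
  unfold w
  rw [Nat.primeFactors_prime_pow hk hp, Finset.prod_singleton]

/-- the summand of Rankin's method -/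
noncomputable def f (A σ : ℝ) (u : ℕ) : ℝ := w A u * (u : ℝ) ^ (-σ)

theorem f_one (A σ : ℝ) : f A σ 1 = 1 := by simp [f, w_one]

theorem f_nonneg {A : ℝ} (hA : 0 ≤ A) (σ : ℝ) (u : ℕ) : 0 ≤ f A σ u :=
  mul_nonneg (w_nonneg hA u) (Real.rpow_nonneg (Nat.cast_nonneg u) _)

theorem f_mul (A σ : ℝ) {u v : ℕ} (h : Nat.Coprime u v) : f A σ (u * v) = f A σ u * f A σ v := by
  unfold f
  rw [w_mul A h, Nat.cast_mul, Real.mul_rpow (Nat.cast_nonneg u) (Nat.cast_nonneg v)]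
  ring

theorem f_prime_pow (A σ : ℝ) {p k : ℕ} (hp : p.Prime) (hk : k ≠ 0) :
    f A σ (p ^ k) = A / p * ((p : ℝ) ^ (-σ)) ^ k := by
  unfold f
  rw [w_prime_pow A hp hk, Nat.cast_pow, ← Real.rpow_natCast, ← Real.rpow_mul (Nat.cast_nonneg p),
    ← Real.rpow_natCast, ← Real.rpow_mul (Nat.cast_nonneg p), mul_comm (k : ℝ)]

theorem ratio_lt {σ : ℝ} (hσ : 0 < σ) {p : ℕ} (hp : p.Prime) :
    (p : ℝ) ^ (-σ) ≤ (2 : ℝ) ^ (-σ) := by
  have h2 : (2 : ℝ) ≤ p := by exact_mod_cast hp.two_le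
  rw [Real.rpow_neg (by positivity), Real.rpow_neg (by norm_num)]
  exact inv_anti₀ (Real.rpow_pos_of_pos (by norm_num) _)
    (Real.rpow_le_rpow (by norm_num) h2 hσ.le)

theorem two_lt {σ : ℝ} (hσ : 0 < σ) : (2 : ℝ) ^ (-σ) < 1 :=
  Real.rpow_lt_one_of_one_lt_of_neg (by norm_num) (by linarith)

theorem hasSum_local (A : ℝ) {σ : ℝ} (hσ : 0 < σ) {p : ℕ} (hp : p.Prime) :
    HasSum (fun k : ℕ => f A σ (p ^ k))
      (1 + A / p * ((p : ℝ) ^ (-σ) * (1 - (p : ℝ) ^ (-σ))⁻¹)) := by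
  have hr : (p : ℝ) ^ (-σ) < 1 := lt_of_le_of_lt (ratio_lt hσ hp) (two_lt hσ)
  have hr0 : 0 ≤ (p : ℝ) ^ (-σ) := Real.rpow_nonneg (Nat.cast_nonneg p) _
  have h1 : HasSum (fun k : ℕ => f A σ (p ^ (k + 1)))
      (A / p * ((p : ℝ) ^ (-σ) * (1 - (p : ℝ) ^ (-σ))⁻¹)) := by
    have h2 := ((hasSum_geometric_of_lt_one hr0 hr).mul_left ((p : ℝ) ^ (-σ))).mul_left (A / p)
    refine h2.congr_fun ?_ |> fun h => h
    intro k
    rw [f_prime_pow A σ hp (Nat.succ_ne_zero k), pow_succ]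
    ring
  have h3 := (hasSum_nat_add_iff' (f := fun k : ℕ => f A σ (p ^ k)) 1
    (g := 1 + A / p * ((p : ℝ) ^ (-σ) * (1 - (p : ℝ) ^ (-σ))⁻¹))).1
  apply h3
  simp only [Finset.sum_range_one, pow_zero, f_one, add_sub_cancel_left]
  exact h1

theorem summable_local {A : ℝ} (hA : 0 ≤ A) {σ : ℝ} (hσ : 0 < σ) {p : ℕ} (hp : p.Prime) :
    Summable (fun k : ℕ => ‖f A σ (p ^ k)‖) := by
  have h := (hasSum_local A hσ hp).summable
  refine h.congr fun k => ?_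
  rw [Real.norm_of_nonneg (f_nonneg hA σ _)]

/-- the local factor is at most `1 + A' / p ^ (1 + σ)` -/
theorem local_le {A : ℝ} (hA : 0 ≤ A) {σ : ℝ} (hσ : 0 < σ) {p : ℕ} (hp : p.Prime) :
    ∑' k : ℕ, f A σ (p ^ k) ≤ 1 + A / (1 - 2 ^ (-σ)) * (p : ℝ) ^ (-(1 + σ)) := by
  rw [(hasSum_local A hσ hp).tsum_eq]
  have hp0 : (0 : ℝ) < p := by exact_mod_cast hp.pos
  have hr : (p : ℝ) ^ (-σ) < 1 := lt_of_le_of_lt (ratio_lt hσ hp) (two_lt hσ)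
  have hr0 : 0 ≤ (p : ℝ) ^ (-σ) := Real.rpow_nonneg (Nat.cast_nonneg p) _
  have h2 := two_lt hσ
  have h3 : (1 - (p : ℝ) ^ (-σ))⁻¹ ≤ (1 - (2 : ℝ) ^ (-σ))⁻¹ :=
    inv_anti₀ (by linarith) (by linarith [ratio_lt hσ hp])
  have h4 : (p : ℝ) ^ (-(1 + σ)) = (p : ℝ)⁻¹ * (p : ℝ) ^ (-σ) := by
    rw [neg_add, Real.rpow_add hp0, Real.rpow_neg_one]
  rw [h4]
  have h5 : A / p * ((p : ℝ) ^ (-σ) * (1 - (p : ℝ) ^ (-σ))⁻¹) ≤
      A / p * ((p : ℝ) ^ (-σ) * (1 - (2 : ℝ) ^ (-σ))⁻¹) :=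
    mul_le_mul_of_nonneg_left (mul_le_mul_of_nonneg_left h3 hr0) (div_nonneg hA hp0.le)
  calc 1 + A / p * ((p : ℝ) ^ (-σ) * (1 - (p : ℝ) ^ (-σ))⁻¹)
      ≤ 1 + A / p * ((p : ℝ) ^ (-σ) * (1 - (2 : ℝ) ^ (-σ))⁻¹) := by linarith
    _ = 1 + A / (1 - 2 ^ (-σ)) * ((p : ℝ)⁻¹ * (p : ℝ) ^ (-σ)) := by
        rw [div_eq_mul_inv, div_eq_mul_inv]; ring

/-- `log (1 + x) ≤ x ^ τ / τ` -/
theorem log_one_add_le {x τ : ℝ} (hx : 0 ≤ x) (hτ : 0 < τ) (hτ1 : τ ≤ 1) :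
    Real.log (1 + x) ≤ x ^ τ / τ := by
  rw [le_div_iff₀ hτ, mul_comm, ← Real.log_rpow (by linarith)]
  have h1 : (1 + x) ^ τ ≤ 1 + x ^ τ := by
    have := Real.rpow_add_le_add_rpow (a := 1) (b := x) zero_le_one hx hτ.le hτ1
    simpa using this
  have h2 : 0 < (1 + x) ^ τ := Real.rpow_pos_of_pos (by linarith) _
  calc Real.log ((1 + x) ^ τ) ≤ Real.log (1 + x ^ τ) := Real.log_le_log h2 h1
    _ ≤ (1 + x ^ τ) - 1 := Real.log_le_sub_one_of_pos (by positivity)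
    _ = x ^ τ := by ring

/-- Young: `t ^ τ ≤ η t + K` -/
theorem rpow_le_linear {τ η : ℝ} (hτ : 0 < τ) (hτ1 : τ < 1) (hη : 0 < η) :
    ∃ K : ℝ, 0 ≤ K ∧ ∀ t : ℝ, 0 ≤ t → t ^ τ ≤ η * t + K := by
  refine ⟨(η ^ (-(1 / (1 - τ)))) ^ τ, by positivity, fun t ht => ?_⟩
  rcases le_or_gt (t ^ τ) (η * t) with h | h
  · have : 0 ≤ (η ^ (-(1 / (1 - τ)))) ^ τ := by positivity
    linarith
  · have ht0 : 0 < t := by
      rcases ht.lt_or_eq with h0 | h0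
      · exact h0
      · rw [← h0, Real.zero_rpow hτ.ne'] at h
        simp at h
    have h1 : η * t ^ (1 - τ) < 1 := by
      rw [Real.rpow_sub ht0, Real.rpow_one, ← mul_div_assoc, div_lt_one (by positivity)]
      exact h
    have h2 : t ≤ η ^ (-(1 / (1 - τ))) := by
      have h3 : t ^ (1 - τ) ≤ η⁻¹ := by
        rw [← one_div, le_div_iff₀ hη]
        linarith
      have h4 : (t ^ (1 - τ)) ^ (1 / (1 - τ)) ≤ (η⁻¹) ^ (1 / (1 - τ)) :=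
        Real.rpow_le_rpow (by positivity) h3 (by
          have : 0 < 1 - τ := by linarith
          positivity)
      rw [← Real.rpow_mul ht, mul_one_div_cancel (by linarith), Real.rpow_one] at h4
      rwa [Real.rpow_neg hη.le, ← Real.inv_rpow hη.le]
    have h5 : t ^ τ ≤ (η ^ (-(1 / (1 - τ)))) ^ τ := Real.rpow_le_rpow ht h2 hτ.le
    nlinarith [mul_nonneg hη.le ht]

/-- The Euler product bound. -/
theorem prod_le {σ : ℝ} (hσ : 0 < σ) :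
    ∃ τ Z : ℝ, 0 < τ ∧ τ < 1 ∧ 0 ≤ Z ∧ ∀ (A : ℝ), 0 ≤ A → ∀ N : ℕ,
      ∏ p ∈ N.primesBelow, (∑' k : ℕ, f A σ (p ^ k)) ≤
        Real.exp (Z * (A / (1 - 2 ^ (-σ))) ^ τ) := by
  have h2 := two_lt hσ
  obtain ⟨τ, hτdef⟩ : ∃ τ : ℝ, τ = (1 + σ / 2) / (1 + σ) := ⟨_, rfl⟩
  have hτ : 0 < τ := by rw [hτdef]; positivity
  have hτ1 : τ < 1 := by
    rw [hτdef, div_lt_one (by positivity)]; linarith
  have hmul : (1 + σ) * τ = 1 + σ / 2 := by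
    rw [hτdef]; field_simp
  have hs : Summable (fun n : ℕ => (n : ℝ) ^ (-(1 + σ / 2))) :=
    Real.summable_nat_rpow.2 (by linarith)
  refine ⟨τ, (∑' n : ℕ, (n : ℝ) ^ (-(1 + σ / 2))) / τ, hτ, hτ1,
    div_nonneg (tsum_nonneg fun n => Real.rpow_nonneg (Nat.cast_nonneg n) _) hτ.le, ?_⟩
  intro A hA N
  set B : ℝ := A / (1 - 2 ^ (-σ)) with hB
  have hB0 : 0 ≤ B := div_nonneg hA (by linarith)
  have hstep : ∀ p ∈ N.primesBelow, ∑' k : ℕ, f A σ (p ^ k) ≤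
      Real.exp (B ^ τ / τ * (p : ℝ) ^ (-(1 + σ / 2))) := by
    intro p hp
    have hpp : p.Prime := (Nat.mem_primesBelow.1 hp).2
    have hx : 0 ≤ B * (p : ℝ) ^ (-(1 + σ)) :=
      mul_nonneg hB0 (Real.rpow_nonneg (Nat.cast_nonneg p) _)
    refine (local_le hA hσ hpp).trans ?_
    rw [← hB, ← Real.log_le_iff_le_exp (by linarith)]
    refine (log_one_add_le hx hτ hτ1.le).trans (le_of_eq ?_)
    rw [Real.mul_rpow hB0 (Real.rpow_nonneg (Nat.cast_nonneg p) _),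
      ← Real.rpow_mul (Nat.cast_nonneg p), neg_mul, hmul]
    ring
  have hnn : ∀ p ∈ N.primesBelow, 0 ≤ ∑' k : ℕ, f A σ (p ^ k) :=
    fun p _ => tsum_nonneg fun k => f_nonneg hA σ _
  refine (Finset.prod_le_prod hnn hstep).trans ?_
  rw [← Real.exp_sum, ← Finset.mul_sum]
  refine Real.exp_le_exp.2 ?_
  have hle : ∑ p ∈ N.primesBelow, (p : ℝ) ^ (-(1 + σ / 2)) ≤
      ∑' n : ℕ, (n : ℝ) ^ (-(1 + σ / 2)) :=
    hs.sum_le_tsum _ fun n _ => Real.rpow_nonneg (Nat.cast_nonneg n) _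
  calc B ^ τ / τ * ∑ p ∈ N.primesBelow, (p : ℝ) ^ (-(1 + σ / 2))
      ≤ B ^ τ / τ * ∑' n : ℕ, (n : ℝ) ^ (-(1 + σ / 2)) :=
        mul_le_mul_of_nonneg_left hle (by positivity)
    _ = (∑' n : ℕ, (n : ℝ) ^ (-(1 + σ / 2))) / τ * B ^ τ := by ring

/-- Rankin's method -/
theorem sum_w_le_prod {A σ : ℝ} (hA : 0 ≤ A) (hσ : 0 < σ) (M : ℕ) :
    ∑ u ∈ Finset.Icc 1 M, w A u ≤
      (M : ℝ) ^ σ * ∏ p ∈ (M + 1).primesBelow, (∑' k : ℕ, f A σ (p ^ k)) := by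
  have hE := EulerProduct.summable_and_hasSum_smoothNumbers_prod_primesBelow_tsum
    (f := f A σ) (f_one A σ) (fun {m n} h => f_mul A σ h)
    (fun {p} hp => summable_local hA hσ hp) (M + 1)
  have h1 : ∀ u ∈ Finset.Icc 1 M, w A u ≤ (M : ℝ) ^ σ * f A σ u := by
    intro u hu
    obtain ⟨hu1, hu2⟩ := Finset.mem_Icc.1 hu
    have hu0 : (0 : ℝ) < u := by exact_mod_cast hu1
    have hle : (u : ℝ) ^ σ ≤ (M : ℝ) ^ σ :=
      Real.rpow_le_rpow hu0.le (by exact_mod_cast hu2) hσ.le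
    unfold f
    have hpos : 0 < (u : ℝ) ^ σ := Real.rpow_pos_of_pos hu0 _
    rw [Real.rpow_neg hu0.le]
    have : 1 ≤ (M : ℝ) ^ σ * ((u : ℝ) ^ σ)⁻¹ := by
      rw [← div_eq_mul_inv, one_le_div hpos]
      exact hle
    calc w A u = w A u * 1 := (mul_one _).symm
      _ ≤ w A u * ((M : ℝ) ^ σ * ((u : ℝ) ^ σ)⁻¹) :=
        mul_le_mul_of_nonneg_left this (w_nonneg hA u)
      _ = _ := by ring
  refine (Finset.sum_le_sum h1).trans ?_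
  rw [← Finset.mul_sum]
  refine mul_le_mul_of_nonneg_left ?_ (Real.rpow_nonneg (Nat.cast_nonneg M) _)
  -- the finite sum over `u ≤ M` is at most the sum over the smooth numbers
  have hmem : ∀ u ∈ Finset.Icc 1 M, u ∈ Nat.smoothNumbers (M + 1) := by
    intro u hu
    obtain ⟨hu1, hu2⟩ := Finset.mem_Icc.1 hu
    refine Nat.mem_smoothNumbers'.2 fun p hp hpu => ?_
    exact lt_of_le_of_lt (Nat.le_of_dvd hu1 hpu) (Nat.lt_succ_of_le hu2)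
  have h2 : ∑ u ∈ Finset.Icc 1 M, f A σ u =
      ∑ u ∈ (Finset.Icc 1 M).attach.map ⟨fun u => (⟨u.1, hmem u.1 u.2⟩ :
        Nat.smoothNumbers (M + 1)), fun a b h => by
          apply Subtype.ext
          simpa using h⟩, f A σ u.1 := by
    rw [Finset.sum_map]
    exact (Finset.sum_attach (Finset.Icc 1 M) (f A σ)).symm
  rw [h2]
  exact sum_le_hasSum _ (fun u _ => f_nonneg hA σ _) hE.2

/-- The sum of `w` over `u ≤ X` is at most `C X ^ δ`. -/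
theorem sum_w_le {δ : ℝ} (hδ : 0 < δ) : ∃ C : ℝ, 0 ≤ C ∧ ∀ X : ℝ, 1 ≤ X →
    ∑ u ∈ Finset.Icc 1 ⌊X⌋₊, w (1 + 3 * Real.log X) u ≤ C * X ^ δ := by
  set σ : ℝ := δ / 2 with hσdef
  have hσ : 0 < σ := by positivity
  have h2 := two_lt hσ
  have hq : 0 < 1 - (2 : ℝ) ^ (-σ) := by linarith
  obtain ⟨τ, Z, hτ, hτ1, hZ, hprod⟩ := prod_le hσ
  set q : ℝ := 1 - (2 : ℝ) ^ (-σ) with hqdef
  obtain ⟨K, hK, hlin⟩ := rpow_le_linear (τ := τ) (η := σ * q / (3 * (Z + 1))) hτ hτ1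
    (by positivity)
  refine ⟨Real.exp (σ + Z * K), (Real.exp_pos _).le, fun X hX => ?_⟩
  have hL : 0 ≤ Real.log X := Real.log_nonneg hX
  set A : ℝ := 1 + 3 * Real.log X with hA
  have hA0 : 0 ≤ A := by positivity
  refine (sum_w_le_prod hA0 hσ ⌊X⌋₊).trans ?_
  have hX0 : 0 < X := by linarith
  have hfl : ((⌊X⌋₊ : ℕ) : ℝ) ^ σ ≤ X ^ σ :=
    Real.rpow_le_rpow (Nat.cast_nonneg _) (Nat.floor_le hX0.le) hσ.le
  have hexp : Real.exp (Z * (A / q) ^ τ) ≤ Real.exp (σ + Z * K) * X ^ σ := by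
    rw [Real.rpow_def_of_pos hX0, ← Real.exp_add]
    refine Real.exp_le_exp.2 ?_
    have h3 := hlin (A / q) (by positivity)
    have h4 : Z * (A / q) ^ τ ≤ Z * (σ * q / (3 * (Z + 1)) * (A / q) + K) :=
      mul_le_mul_of_nonneg_left h3 hZ
    have h5 : Z * (σ * q / (3 * (Z + 1)) * (A / q) + K) = (Z / (Z + 1)) * (σ * A / 3) + Z * K := by
      field_simp
    have h6 : Z / (Z + 1) ≤ 1 := by
      rw [div_le_one (by positivity)]; linarith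
    have h7 : (Z / (Z + 1)) * (σ * A / 3) ≤ 1 * (σ * A / 3) :=
      mul_le_mul_of_nonneg_right h6 (by positivity)
    have h8 : σ * A / 3 ≤ σ + σ * Real.log X := by
      rw [hA]
      nlinarith [mul_nonneg hσ.le hL]
    linarith [mul_comm σ (Real.log X)]
  calc ((⌊X⌋₊ : ℕ) : ℝ) ^ σ * ∏ p ∈ (⌊X⌋₊ + 1).primesBelow, (∑' k : ℕ, f A σ (p ^ k))
      ≤ X ^ σ * (Real.exp (σ + Z * K) * X ^ σ) := by
        refine mul_le_mul hfl ((hprod A hA0 _).trans hexp) ?_ (by positivity)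
        exact Finset.prod_nonneg fun p _ => tsum_nonneg fun k => f_nonneg hA0 σ _
    _ = Real.exp (σ + Z * K) * X ^ δ := by
        have : X ^ δ = X ^ σ * X ^ σ := by
          rw [← Real.rpow_add hX0, hσdef]; ring_nf
        rw [this]; ring

end Pool.Agent.Q173.HW
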